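import Pool.Agent.X244.CatMain

/-!
The distribution of the major index on the 123-avoiding linear extensions of the `2 × t` rectangle
(and on all its linear extensions) is a shifted `q`-Catalan number of MacMahon.
-/

set_option autoImplicit false

namespace Pool.Agent.Results.MP_28c202_co.MajorIndexCatalan

open Finset

/-- The order of `NE_{2,t}` on the labels `1, ..., 2 t`: `(i - 1) t + k` is below or equal to
`(i' - 1) t + k'`, for `i, i'` in `{1, 2}` and `k, k'` in `{1, ..., t}`, if `i ≥ i'` and `k ≥ k'`. -/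
def Below (t x y : ℕ) : Prop :=
  ∃ i k i' k' : ℕ, (1 ≤ i ∧ i ≤ 2) ∧ (1 ≤ k ∧ k ≤ t) ∧ (1 ≤ i' ∧ i' ≤ 2) ∧ (1 ≤ k' ∧ k' ≤ t) ∧
    x = (i - 1) * t + k ∧ y = (i' - 1) * t + k' ∧ i' ≤ i ∧ k' ≤ k

/-- The permutation with the entries `π 0 + 1, π 1 + 1, ...` in one-line notation is a linear
extension of `NE_{2,t}`: an entry which is strictly below another one comes before it. -/
def LinearExtension (t : ℕ) (π : Equiv.Perm (Fin (2 * t))) : Prop :=
  ∀ a b : Fin (2 * t), Below t ((π a).val + 1) ((π b).val + 1) → π a ≠ π b → a < b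

/-- The permutation avoids the pattern 123. -/
def Avoids123 {n : ℕ} (π : Equiv.Perm (Fin n)) : Prop :=
  ¬ ∃ a b c : Fin n, a < b ∧ b < c ∧ π a < π b ∧ π b < π c

/-- The major index of a finite sequence `w(1), ..., w(n)` (here indexed by `0, ..., n - 1`): the sum
of the positions `i` (counted from `1`) with `w(i) > w(i + 1)`. -/
def maj {n : ℕ} {α : Type} [LinearOrder α] (w : Fin n → α) : ℕ :=
  ∑ i : Fin n, if h : i.val + 1 < n then (if w ⟨i.val + 1, h⟩ < w i then i.val + 1 else 0) else 0

/-- The word `w` of length `2 n` in the letters `0` (`false`) and `1` (`true`) is a Catalan word: it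
has `n` zeros and `n` ones, and every initial segment has at least as many zeros as ones. -/
def CatalanWord (n : ℕ) (w : Fin (2 * n) → Bool) : Prop :=
  (univ.filter fun i => w i = false).card = n ∧ (univ.filter fun i => w i = true).card = n ∧
    ∀ m : ℕ, (univ.filter fun i : Fin (2 * n) => i.val < m ∧ w i = true).card ≤
      (univ.filter fun i : Fin (2 * n) => i.val < m ∧ w i = false).card

open Classical in
/-- The polynomial `NE_{2,t}(123)[q]`. -/
noncomputable def rectPoly (t : ℕ) : Polynomial ℤ :=
  ∑ π ∈ univ.filter (fun π : Equiv.Perm (Fin (2 * t)) => LinearExtension t π ∧ Avoids123 π),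
    Polynomial.X ^ maj (fun a => π a)

open Classical in
/-- The `q`-Catalan number `c_n(q)` of MacMahon. -/
noncomputable def catPoly (n : ℕ) : Polynomial ℤ :=
  ∑ w ∈ univ.filter (fun w : Fin (2 * n) → Bool => CatalanWord n w), Polynomial.X ^ maj w

theorem linearExtension_iff {t : ℕ} (π : Equiv.Perm (Fin (2 * t))) :
    LinearExtension t π ↔ Pool.Agent.X244.Cat.LE t π := by
  constructor
  · intro h
    refine ⟨?_, ?_, ?_⟩
    · intro a b ha hb hab
      refine h a b ⟨1, (π a).val + 1, 1, (π b).val + 1, by omega, by omega, by omega, by omega,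
        by omega, by omega, by omega, by omega⟩ ?_
      intro he
      rw [he] at hab
      omega
    · intro a b ha hb hab
      have h1 := (π a).isLt
      have h2 := (π b).isLt
      refine h a b ⟨2, (π a).val + 1 - t, 2, (π b).val + 1 - t, by omega, by omega, by omega,
        by omega, by omega, by omega, by omega, by omega⟩ ?_
      intro he
      rw [he] at hab
      omega
    · intro a b ha hb hab
      have h1 := (π a).isLt
      have h2 := (π b).isLt
      refine h a b ⟨2, (π a).val + 1 - t, 1, (π b).val + 1, by omega, by omega, by omega,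
        by omega, by omega, by omega, by omega, by omega⟩ ?_
      intro he
      rw [he] at ha
      omega
  · rintro ⟨h1, h2, h3⟩ a b ⟨i, k, i', k', hi, hk, hi', hk', hx, hy, hii, hkk⟩ hne
    have hne' : (π a).val ≠ (π b).val := fun he => hne (Fin.ext he)
    obtain rfl | rfl : i = 1 ∨ i = 2 := by omega
    · obtain rfl : i' = 1 := by omega
      simp only [Nat.sub_self, zero_mul, zero_add] at hx hy
      exact h1 a b (by omega) (by omega) (by omega)
    · obtain rfl | rfl : i' = 1 ∨ i' = 2 := by omega
      · simp only [Nat.sub_self, zero_mul, zero_add] at hy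
        have hx' : (π a).val + 1 = t + k := by rw [hx]; ring
        exact h3 a b (by omega) (by omega) (by omega)
      · have hx' : (π a).val + 1 = t + k := by rw [hx]; ring
        have hy' : (π b).val + 1 = t + k' := by rw [hy]; ring
        exact h2 a b (by omega) (by omega) (by omega)

/-- Every linear extension avoids 123. -/
theorem avoids_of_linearExtension {t : ℕ} (π : Equiv.Perm (Fin (2 * t)))
    (h : LinearExtension t π) : Avoids123 π := by
  rw [linearExtension_iff] at h
  rintro ⟨a, b, c, hab, hbc, h1, h2⟩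
  rw [Fin.lt_def] at h1 h2
  rcases Nat.lt_or_ge (π b).val t with hb | hb
  · exact absurd (h.low b a hb (by omega) h1) (not_lt.2 hab.le)
  · exact absurd (h.high c b (by omega) hb h2) (not_lt.2 hbc.le)

theorem catalanWord_iff {n : ℕ} (w : Fin (2 * n) → Bool) :
    CatalanWord n w ↔ Pool.Agent.X244.Cat.cnt w true (2 * n) = n ∧
      Pool.Agent.X244.Cat.Ballot w := by
  have h1 : ∀ x, (univ.filter fun i => w i = x).card = Pool.Agent.X244.Cat.cnt w x (2 * n) := by
    intro x
    rw [Pool.Agent.X244.Cat.cnt]
    congr 1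
    refine Finset.filter_congr fun i _ => ?_
    exact ⟨fun h => ⟨i.isLt, h⟩, fun h => h.2⟩
  rw [CatalanWord, h1, h1]
  have h2 := Pool.Agent.X244.Cat.cnt_all w (2 * n) le_rfl
  constructor
  · rintro ⟨-, h3, h4⟩
    exact ⟨h3, h4⟩
  · rintro ⟨h3, h4⟩
    exact ⟨by omega, h3, h4⟩

/-- `NE_{2,t}(123)[q] = q^(t^2) c_t(q)` for every `t ≥ 1`. -/
theorem result (t : ℕ) (ht : 1 ≤ t) : rectPoly t = Polynomial.X ^ (t ^ 2) * catPoly t := by
  classical
  apply Polynomial.map_injective (Int.castRingHom ℝ) Int.cast_injective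
  apply Polynomial.eq_of_infinite_eval_eq
  refine Set.Infinite.mono ?_ (Set.Ioi_infinite (1 : ℝ))
  intro q hq
  have hq1 : (1 : ℝ) < q := hq
  have hq0 : 0 < q := by linarith
  show Polynomial.eval q _ = Polynomial.eval q _
  rw [Polynomial.map_mul, Polynomial.map_pow, Polynomial.map_X, Polynomial.eval_mul,
    Polynomial.eval_pow, Polynomial.eval_X, rectPoly, catPoly, Polynomial.map_sum,
    Polynomial.map_sum, Polynomial.eval_finset_sum, Polynomial.eval_finset_sum]
  simp only [Polynomial.map_pow, Polynomial.map_X, Polynomial.eval_pow, Polynomial.eval_X]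
  have e1 : (univ.filter fun π : Equiv.Perm (Fin (2 * t)) => LinearExtension t π ∧ Avoids123 π) =
      univ.filter fun π : Equiv.Perm (Fin (2 * t)) => Pool.Agent.X244.Cat.LE t π := by
    refine Finset.filter_congr fun π _ => ?_
    rw [← linearExtension_iff]
    exact ⟨fun h => h.1, fun h => ⟨h, avoids_of_linearExtension π h⟩⟩
  rw [e1]
  have e2 := Pool.Agent.X244.Cat.sum_LE hq0.ne' t
  have e3 := Pool.Agent.X244.Cat.G_symm hq0 hq1.ne' t ht
  have e4 : ∑ w ∈ univ.filter (fun w : Fin (2 * t) → Bool => CatalanWord t w), q ^ maj w =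
      Pool.Agent.X244.Cat.G q (2 * t) t := by
    rw [Pool.Agent.X244.Cat.G, Finset.sum_filter]
    refine Finset.sum_congr rfl fun w _ => ?_
    by_cases h : CatalanWord t w
    · rw [if_pos h, if_pos ((catalanWord_iff w).1 h)]
      rfl
    · rw [if_neg h, if_neg (fun h' => h ((catalanWord_iff w).2 h'))]
  rw [e4, ← e3, ← e2]
  rfl

end Pool.Agent.Results.MP_28c202_co.MajorIndexCatalan
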